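import Mathlib

/-!
# Cardinal characteristics used in the results on the convergent-subseries number
-/

namespace Pool.Agent.Helper79.Ssc

open Filter Topology MeasureTheory Cardinal

/-- The series `∑ a i` of real numbers converges: its sequence of finite initial sums has a real limit. -/
def SeriesConv (a : ℕ → ℝ) : Prop :=
  ∃ l : ℝ, Tendsto (fun n => ∑ i ∈ Finset.range n, a i) atTop (𝓝 l)

/-- `a` is a conditionally convergent sequence of rationals. -/
def CondConv (a : ℕ → ℚ) : Prop :=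
  SeriesConv (fun i => (a i : ℝ)) ∧ ¬ SeriesConv (fun i => |(a i : ℝ)|)

/-- The subseries of `a` along the increasing enumeration of `X` converges. -/
def SubConv (X : Set ℕ) (a : ℕ → ℚ) : Prop :=
  SeriesConv (fun n => (a (Nat.nth (fun i => i ∈ X) n) : ℝ))

/-- The convergent-subseries number. -/
noncomputable def ssc : Cardinal.{0} :=
  sInf {κ | ∃ 𝒳 : Set (Set ℕ), (∀ X ∈ 𝒳, X.Infinite ∧ Xᶜ.Infinite) ∧
    (∀ a : ℕ → ℚ, CondConv a → ∃ X ∈ 𝒳, SubConv X a) ∧ #𝒳 = κ}

/-- The dominating number. -/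
noncomputable def dNum : Cardinal.{0} :=
  sInf {κ | ∃ D : Set (ℕ → ℕ), (∀ f : ℕ → ℕ, ∃ g ∈ D, ∀ᶠ n in atTop, f n ≤ g n) ∧ #D = κ}

/-- The covering number of the σ-ideal generated by the closed Lebesgue null sets of reals. -/
noncomputable def covClosedNull : Cardinal.{0} :=
  sInf {κ | ∃ 𝒩 : Set (Set ℝ), (∀ N ∈ 𝒩, IsClosed N ∧ volume N = 0) ∧ ⋃₀ 𝒩 = Set.univ ∧ #𝒩 = κ}

/-- The least size of a family of pairs `(K, S)`, where `K` is an infinite set of natural numbers and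
`S k` is a set of at most `h k` natural numbers for each `k`, such that for every function `x` below `b`
there is a pair `(K, S)` in the family with `x k ∈ S k` for all but finitely many `k ∈ K`. -/
noncomputable def ploc (b h : ℕ → ℕ) : Cardinal.{0} :=
  sInf {κ | ∃ 𝒮 : Set (Set ℕ × (ℕ → Finset ℕ)), (∀ q ∈ 𝒮, q.1.Infinite ∧ ∀ k, (q.2 k).card ≤ h k) ∧
    (∀ x : ℕ → ℕ, (∀ k, x k < b k) → ∃ q ∈ 𝒮, ∀ᶠ k in atTop, k ∈ q.1 → x k ∈ q.2 k) ∧ #𝒮 = κ}

end Pool.Agent.Helper79.Ssc
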