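import Mathlib
import Pool.Agent.Helper79.SscDefs

/-!
# A lower bound for the convergent-subseries number

`ssc` is the least size of a family of infinite coinfinite sets such that every conditionally
convergent series of rationals has a convergent subseries along a member of the family.
We prove in ZFC that `min (covClosedNull, dNum) ≤ ssc`, where `covClosedNull` is the least number of
closed Lebesgue null sets covering the real line (the covering number of the ideal `ℰ`) and `dNum` is
the dominating number.  In particular `min (cov(N), d) ≤ ssc`.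

Idea: given a family of fewer than `min (covClosedNull, dNum)` infinite coinfinite sets `X`, choose a rate
`ε i → 0` so slow that `∑ (ε i)^2` diverges over the boundary of every `X` (possible below `d`), and
put `a i = ε i * s i - ε (i-1) * s (i-1)` with signs `s i` given by the binary digits of a
real `x`.  The series telescopes, while the subseries along `X` has bounded sums only if the
Rademacher series `∑ ± ε i * s i` over the boundary of `X` has bounded sums, which confines `x` to
countably many closed null sets.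
-/

namespace Pool.Agent.Helper79.Ssc

open Filter Topology MeasureTheory Cardinal

noncomputable def r (t : ℝ) : ℝ := if Even ⌊2 * t⌋ then 1 else -1

noncomputable def rad (n : ℕ) (x : ℝ) : ℝ := r (2^n * x)

lemma r_add_int (t : ℝ) (k : ℤ) : r (t + k) = r t := by
  unfold r
  have : 2 * (t + k) = 2 * t + ((2 * k : ℤ) : ℝ) := by push_cast; ring
  rw [this, Int.floor_add_intCast]
  simp [Int.even_add]

lemma r_sq (t : ℝ) : r t * r t = 1 := by
  unfold r; split_ifs <;> norm_num

lemma r_add_half (t : ℝ) : r (t + 1/2) = - r t := by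
  unfold r
  have : 2 * (t + 1/2) = 2 * t + ((1 : ℤ) : ℝ) := by push_cast; ring
  rw [this, Int.floor_add_intCast]
  by_cases h : Even ⌊2 * t⌋ <;> simp [h]

lemma rad_sq (n : ℕ) (x : ℝ) : rad n x * rad n x = 1 := r_sq _

lemma rad_abs (n : ℕ) (x : ℝ) : |rad n x| = 1 := by
  have := rad_sq n x
  have h2 : |rad n x| * |rad n x| = 1 := by rw [← abs_mul, this, abs_one]
  nlinarith [abs_nonneg (rad n x)]

lemma rad_add_one (n : ℕ) (x : ℝ) : rad n (x + 1) = rad n x := by
  unfold rad
  have : (2:ℝ)^n * (x + 1) = 2^n * x + ((2^n : ℤ) : ℝ) := by push_cast; ring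
  rw [this, r_add_int]

lemma rad_shift_self (n : ℕ) (x : ℝ) : rad n (x + 1 / 2^(n+1)) = - rad n x := by
  unfold rad
  have : (2:ℝ)^n * (x + 1 / 2^(n+1)) = 2^n * x + 1/2 := by
    rw [mul_add]; congr 1; field_simp; ring
  rw [this, r_add_half]

lemma rad_shift_gt {n m : ℕ} (h : n < m) (x : ℝ) : rad m (x + 1 / 2^(n+1)) = rad m x := by
  unfold rad
  have : (2:ℝ)^m * (x + 1 / 2^(n+1)) = 2^m * x + ((2^(m - (n+1)) : ℤ) : ℝ) := by
    obtain ⟨k, rfl⟩ : ∃ k, m = n + 1 + k := ⟨m - (n+1), by omega⟩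
    have : n + 1 + k - (n+1) = k := by omega
    rw [this]
    push_cast
    rw [mul_add]; congr 1
    rw [pow_add]; field_simp
  rw [this, r_add_int]

lemma measurable_r : Measurable r := by
  unfold r
  apply Measurable.ite _ measurable_const measurable_const
  have h1 : Measurable (fun t : ℝ => ⌊2 * t⌋) := Int.measurable_floor.comp (measurable_const.mul measurable_id)
  exact h1 (MeasurableSet.of_discrete (s := {k : ℤ | Even k}))

lemma measurable_rad (n : ℕ) : Measurable (rad n) := by
  unfold rad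
  exact measurable_r.comp (measurable_const.mul measurable_id)

/-- the probability measure on a unit interval -/
noncomputable def mu (a : ℝ) : Measure ℝ := volume.restrict (Set.Ioc a (a+1))

instance (a : ℝ) : IsProbabilityMeasure (mu a) := by
  constructor
  simp [mu]

lemma integral_flip (a : ℝ) (G : ℝ → ℝ) (hp : ∀ x, G (x + 1) = G x) (c : ℝ) (hc : ∀ x, G (x + c) = - G x) :
    ∫ x, G x ∂(mu a) = 0 := by
  have h1 : ∫ x, G x ∂(mu a) = ∫ x in a..(a+1), G x := by
    rw [intervalIntegral.integral_of_le (by linarith)]; rfl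
  rw [h1]
  have h2 : ∫ x in a..(a+1), G (x + c) = ∫ x in a..(a+1), G x := by
    rw [intervalIntegral.integral_comp_add_right]
    have := Function.Periodic.intervalIntegral_add_eq (f := G) (T := 1) hp (a + c) a
    rw [← this]; congr 1; ring
  simp only [hc] at h2
  rw [intervalIntegral.integral_neg] at h2
  linarith

/-- pair function -/
noncomputable def ph (p : ℕ × ℕ) (x : ℝ) : ℝ := rad p.1 x * rad p.2 x

lemma ph_sq (p : ℕ × ℕ) (x : ℝ) : ph p x * ph p x = 1 := by
  unfold ph
  have h1 := rad_sq p.1 x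
  have h2 := rad_sq p.2 x
  calc rad p.1 x * rad p.2 x * (rad p.1 x * rad p.2 x) = (rad p.1 x * rad p.1 x) * (rad p.2 x * rad p.2 x) := by ring
    _ = 1 := by rw [h1, h2]; norm_num

lemma ph_abs (p : ℕ × ℕ) (x : ℝ) : |ph p x| = 1 := by
  unfold ph; rw [abs_mul, rad_abs, rad_abs]; norm_num

lemma measurable_ph (p : ℕ × ℕ) : Measurable (ph p) := (measurable_rad _).mul (measurable_rad _)

lemma ph_orth_aux1 (a : ℝ) {p q : ℕ × ℕ} (hp : p.1 < p.2) (hq : q.1 < q.2) (h : p.1 < q.1) :
    ∫ x, ph p x * ph q x ∂(mu a) = 0 := by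
  apply integral_flip a _ _ (1 / 2^(p.1+1))
  · intro x
    simp only [ph]
    rw [rad_shift_self, rad_shift_gt hp, rad_shift_gt h, rad_shift_gt (h.trans hq)]; ring
  · intro x
    simp only [ph, rad_add_one]

lemma ph_orth_aux2 (a : ℝ) {p q : ℕ × ℕ} (h1 : p.1 = q.1) (h : p.2 < q.2) :
    ∫ x, ph p x * ph q x ∂(mu a) = 0 := by
  have : ∀ x, ph p x * ph q x = rad p.2 x * rad q.2 x := by
    intro x
    simp only [ph]
    rw [← h1]
    have := rad_sq p.1 x
    calc rad p.1 x * rad p.2 x * (rad p.1 x * rad q.2 x) = (rad p.1 x * rad p.1 x) * (rad p.2 x * rad q.2 x) := by ring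
      _ = _ := by rw [this, one_mul]
  simp only [this]
  apply integral_flip a _ _ (1 / 2^(p.2+1))
  · intro x
    rw [rad_shift_self, rad_shift_gt h]; ring
  · intro x
    simp only [rad_add_one]

lemma ph_orth (a : ℝ) {p q : ℕ × ℕ} (hp : p.1 < p.2) (hq : q.1 < q.2) (h : p ≠ q) :
    ∫ x, ph p x * ph q x ∂(mu a) = 0 := by
  rcases lt_trichotomy p.1 q.1 with h1 | h1 | h1
  · exact ph_orth_aux1 a hp hq h1
  · rcases lt_trichotomy p.2 q.2 with h2 | h2 | h2
    · exact ph_orth_aux2 a h1 h2
    · exact absurd (Prod.ext h1 h2) h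
    · simp only [mul_comm (ph p _)]
      exact ph_orth_aux2 a h1.symm h2
  · simp only [mul_comm (ph p _)]
    exact ph_orth_aux1 a hq hp h1

variable {a : ℝ}

lemma integrable_of_bdd {f : ℝ → ℝ} (hf : Measurable f) (C : ℝ) (hC : ∀ x, |f x| ≤ C) : Integrable f (mu a) := by
  apply Integrable.of_bound hf.aestronglyMeasurable C
  filter_upwards with x
  simpa using hC x

/-- Fourier coefficient of the indicator of `F`. -/
noncomputable def al (a : ℝ) (F : Set ℝ) (p : ℕ × ℕ) : ℝ := ∫ x, F.indicator 1 x * ph p x ∂(mu a)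

lemma ind_abs (F : Set ℝ) (x : ℝ) : |F.indicator (1 : ℝ → ℝ) x| ≤ 1 := by
  by_cases h : x ∈ F <;> simp [h]

lemma ind_sq (F : Set ℝ) (x : ℝ) : F.indicator (1 : ℝ → ℝ) x * F.indicator (1 : ℝ → ℝ) x = F.indicator 1 x := by
  by_cases h : x ∈ F <;> simp [h]

lemma measurable_ind {F : Set ℝ} (hF : MeasurableSet F) : Measurable (F.indicator (1 : ℝ → ℝ)) :=
  measurable_one.indicator hF

lemma bessel (a : ℝ) {F : Set ℝ} (hF : MeasurableSet F) (P : Finset (ℕ × ℕ)) (hP : ∀ p ∈ P, p.1 < p.2) :
    ∑ p ∈ P, (al a F p)^2 ≤ 1 := by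
  set f : ℝ → ℝ := F.indicator 1 with hf
  have hfm : Measurable f := measurable_ind hF
  have hfb : ∀ x, |f x| ≤ 1 := ind_abs F
  have hi1 : ∀ p, Integrable (fun x => f x * ph p x) (mu a) := by
    intro p
    apply integrable_of_bdd (hfm.mul (measurable_ph p)) 1
    intro x; rw [Pi.mul_apply, abs_mul, ph_abs, mul_one]; exact hfb x
  have hi2 : ∀ p q, Integrable (fun x => ph p x * ph q x) (mu a) := by
    intro p q
    apply integrable_of_bdd ((measurable_ph p).mul (measurable_ph q)) 1
    intro x; rw [Pi.mul_apply, abs_mul, ph_abs, ph_abs]; norm_num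
  have hi0 : Integrable (fun x => f x * f x) (mu a) := by
    apply integrable_of_bdd (hfm.mul hfm) 1
    intro x; rw [Pi.mul_apply, abs_mul]; nlinarith [hfb x, abs_nonneg (f x)]
  have key : 0 ≤ ∫ x, (f x - ∑ p ∈ P, al a F p * ph p x)^2 ∂(mu a) :=
    integral_nonneg (fun x => sq_nonneg _)
  have expand : ∀ x, (f x - ∑ p ∈ P, al a F p * ph p x)^2 =
      f x * f x - 2 * ∑ p ∈ P, al a F p * (f x * ph p x) +
        ∑ p ∈ P, ∑ q ∈ P, (al a F p * al a F q) * (ph p x * ph q x) := by
    intro x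
    have e1 : (∑ p ∈ P, al a F p * ph p x)^2 = ∑ p ∈ P, ∑ q ∈ P, (al a F p * al a F q) * (ph p x * ph q x) := by
      rw [sq, Finset.sum_mul_sum]
      apply Finset.sum_congr rfl; intro p _; apply Finset.sum_congr rfl; intro q _; ring
    have e2 : f x * ∑ p ∈ P, al a F p * ph p x = ∑ p ∈ P, al a F p * (f x * ph p x) := by
      rw [Finset.mul_sum]; apply Finset.sum_congr rfl; intro p _; ring
    rw [← e1, ← e2]; ring
  simp only [expand] at key
  rw [integral_add, integral_sub, integral_const_mul, integral_finsetSum, integral_finsetSum] at key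
  · have h1 : ∀ p ∈ P, ∫ x, al a F p * (f x * ph p x) ∂(mu a) = (al a F p)^2 := by
      intro p _
      rw [integral_const_mul, sq]; rfl
    rw [Finset.sum_congr rfl h1] at key
    have h2 : ∀ p ∈ P, ∫ x, ∑ q ∈ P, (al a F p * al a F q) * (ph p x * ph q x) ∂(mu a) = (al a F p)^2 := by
      intro p hp
      rw [integral_finsetSum]
      · rw [Finset.sum_eq_single p]
        · rw [integral_const_mul]
          have : ∀ x, ph p x * ph p x = 1 := ph_sq p
          simp only [this]
          simp [sq]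
        · intro q hq hqp
          rw [integral_const_mul, ph_orth a (hP p hp) (hP q hq) (Ne.symm hqp), mul_zero]
        · intro h; exact absurd hp h
      · intro q _; exact (hi2 p q).const_mul _
    rw [Finset.sum_congr rfl h2] at key
    have h3 : ∫ x, f x * f x ∂(mu a) ≤ 1 := by
      calc ∫ x, f x * f x ∂(mu a) ≤ ∫ x, (1:ℝ) ∂(mu a) := by
            apply integral_mono hi0 (integrable_const _)
            intro x
            have := hfb x
            have h4 : f x * f x = |f x| * |f x| := by rw [← abs_mul, abs_of_nonneg (mul_self_nonneg _)]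
            simp only
            rw [h4]; nlinarith [abs_nonneg (f x)]
        _ = 1 := by simp
    linarith
  · intro p _; exact integrable_finsetSum _ (fun q _ => (hi2 p q).const_mul _)
  · intro p _; exact (hi1 p).const_mul _
  · exact hi0
  · exact (integrable_finsetSum _ (fun p _ => (hi1 p).const_mul _)).const_mul _
  · exact hi0.sub ((integrable_finsetSum _ (fun p _ => (hi1 p).const_mul _)).const_mul _)
  · exact integrable_finsetSum _ (fun p _ => integrable_finsetSum _ (fun q _ => (hi2 p q).const_mul _))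

lemma sq_expand (x : ℕ → ℝ) (m : ℕ) : ∀ n, m ≤ n → (∑ i ∈ Finset.Ico m n, x i)^2 =
    ∑ j ∈ Finset.Ico m n, (x j)^2 + 2 * ∑ j ∈ Finset.Ico m n, ∑ i ∈ Finset.Ico m j, x i * x j := by
  intro n hn
  induction n, hn using Nat.le_induction with
  | base => simp
  | succ n hn ih =>
    rw [Finset.sum_Ico_succ_top hn, Finset.sum_Ico_succ_top hn, Finset.sum_Ico_succ_top hn, add_sq, ih,
      ← Finset.sum_mul]
    ring

/-- index set of pairs -/
def pairs (m n : ℕ) : Finset (ℕ × ℕ) := (Finset.Ico m n ×ˢ Finset.Ico m n).filter (fun p => p.1 < p.2)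

lemma sum_pairs (f : ℕ → ℕ → ℝ) (m n : ℕ) :
    ∑ j ∈ Finset.Ico m n, ∑ i ∈ Finset.Ico m j, f i j = ∑ p ∈ pairs m n, f p.1 p.2 := by
  unfold pairs
  rw [Finset.sum_filter, Finset.sum_product_right]
  apply Finset.sum_congr rfl
  intro j hj
  rw [← Finset.sum_filter]
  apply Finset.sum_congr _ (fun _ _ => rfl)
  ext i
  simp only [Finset.mem_Ico, Finset.mem_filter] at hj ⊢
  omega

lemma tail_small (a : ℝ) {F : Set ℝ} (hF : MeasurableSet F) (δ : ℝ) (hδ : 0 < δ) :
    ∃ m, ∀ n, ∑ p ∈ pairs m n, (al a F p)^2 ≤ δ := by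
  set g : ℕ × ℕ → ℝ := fun p => if p.1 < p.2 then (al a F p)^2 else 0 with hg
  have hs : Summable g := by
    apply summable_of_sum_le (c := 1)
    · intro p; simp only [hg, Pi.zero_apply]; split_ifs <;> positivity
    · intro u
      simp only [hg]
      rw [← Finset.sum_filter]
      apply bessel a hF
      intro p hp; exact (Finset.mem_filter.1 hp).2
  obtain ⟨s, hs⟩ := summable_iff_vanishing_norm.1 hs δ hδ
  refine ⟨s.sup Prod.fst + 1, fun n => ?_⟩
  have h1 := hs (pairs (s.sup Prod.fst + 1) n) ?_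
  · have h2 : ∑ p ∈ pairs (s.sup Prod.fst + 1) n, g p = ∑ p ∈ pairs (s.sup Prod.fst + 1) n, (al a F p)^2 := by
      apply Finset.sum_congr rfl
      intro p hp
      simp only [hg]
      rw [if_pos (Finset.mem_filter.1 hp).2]
    rw [h2] at h1
    exact (le_abs_self _).trans h1.le
  · rw [Finset.disjoint_left]
    intro p hp hps
    have := Finset.le_sup (f := Prod.fst) hps
    unfold pairs at hp
    simp only [Finset.mem_filter, Finset.mem_product, Finset.mem_Ico] at hp
    omega

/-- main lemma: bounded initial sums on a set of positive measure force square summability -/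
lemma main_bound (a : ℝ) {F : Set ℝ} (hF : MeasurableSet F) (hpos : mu a F ≠ 0) (c : ℕ → ℝ) (C : ℝ)
    (hC : ∀ x ∈ F, ∀ n, |∑ i ∈ Finset.range n, c i * rad i x| ≤ C) : Summable (fun i => c i ^ 2) := by
  set μF : ℝ := (mu a F).toReal with hμF
  have hμpos : 0 < μF := by
    rw [hμF, ENNReal.toReal_pos_iff]
    exact ⟨pos_iff_ne_zero.2 hpos, measure_lt_top _ _⟩
  obtain ⟨m, hm⟩ := tail_small a hF ((μF/4)^2) (by positivity)
  have hint : ∀ p, Integrable (fun x => F.indicator 1 x * ph p x) (mu a) := by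
    intro p
    apply integrable_of_bdd ((measurable_ind hF).mul (measurable_ph p)) 1
    intro x; rw [Pi.mul_apply, abs_mul, ph_abs, mul_one]; exact ind_abs F x
  have hintF : Integrable (fun x => F.indicator (1 : ℝ → ℝ) x) (mu a) :=
    integrable_of_bdd (measurable_ind hF) 1 (ind_abs F)
  have hIF : ∫ x, F.indicator (1 : ℝ → ℝ) x ∂(mu a) = μF := by
    rw [integral_indicator_one hF]; rfl
  have bound : ∀ n, m ≤ n → ∑ j ∈ Finset.Ico m n, (c j)^2 ≤ 8 * C^2 := by
    intro n hn
    set Q : ℝ := ∑ j ∈ Finset.Ico m n, (c j)^2 with hQ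
    have hQ0 : 0 ≤ Q := Finset.sum_nonneg (fun _ _ => sq_nonneg _)
    -- upper bound of the integral
    have up : ∫ x, F.indicator 1 x * (∑ i ∈ Finset.Ico m n, c i * rad i x)^2 ∂(mu a) ≤ 4 * C^2 * μF := by
      have : ∫ x, F.indicator 1 x * (∑ i ∈ Finset.Ico m n, c i * rad i x)^2 ∂(mu a) ≤
          ∫ x, (4 * C^2) * F.indicator (1 : ℝ → ℝ) x ∂(mu a) := by
        apply integral_mono_of_nonneg
        · filter_upwards with x
          apply mul_nonneg _ (sq_nonneg _)
          by_cases h : x ∈ F <;> simp [h]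
        · exact hintF.const_mul _
        · filter_upwards with x
          by_cases h : x ∈ F
          · have h1 := hC x h m
            have h2 := hC x h n
            have h3 : ∑ i ∈ Finset.Ico m n, c i * rad i x =
              ∑ i ∈ Finset.range n, c i * rad i x - ∑ i ∈ Finset.range m, c i * rad i x := by
              rw [Finset.sum_Ico_eq_sub _ hn]
            rw [h3]
            have h4 : |∑ i ∈ Finset.range n, c i * rad i x - ∑ i ∈ Finset.range m, c i * rad i x| ≤ 2 * C := by
              calc _ ≤ |∑ i ∈ Finset.range n, c i * rad i x| + |∑ i ∈ Finset.range m, c i * rad i x| := abs_sub _ _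
                _ ≤ 2 * C := by linarith
            have h5 := sq_le_sq' (by linarith [neg_abs_le (∑ i ∈ Finset.range n, c i * rad i x - ∑ i ∈ Finset.range m, c i * rad i x)]) ((le_abs_self _).trans h4)
            simp only [Set.indicator_of_mem h, Pi.one_apply, one_mul, mul_one]
            linarith
          · simp [h]
      refine this.trans ?_
      rw [integral_const_mul, hIF]
    -- expansion
    have ex : ∀ x, F.indicator 1 x * (∑ i ∈ Finset.Ico m n, c i * rad i x)^2 =
        Q * F.indicator 1 x + 2 * ∑ p ∈ pairs m n, (c p.1 * c p.2) * (F.indicator 1 x * ph p x) := by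
      intro x
      rw [sq_expand _ m n hn, sum_pairs (fun i j => c i * rad i x * (c j * rad j x))]
      have e1 : ∑ j ∈ Finset.Ico m n, (c j * rad j x)^2 = Q := by
        apply Finset.sum_congr rfl
        intro j _
        rw [mul_pow, sq (rad j x), rad_sq, mul_one]
      rw [e1, mul_add, mul_comm _ Q]
      congr 1
      rw [mul_left_comm, Finset.mul_sum]
      congr 1
      apply Finset.sum_congr rfl
      intro p _
      simp only [ph]; ring
    have low : ∫ x, F.indicator 1 x * (∑ i ∈ Finset.Ico m n, c i * rad i x)^2 ∂(mu a) =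
        Q * μF + 2 * ∑ p ∈ pairs m n, (c p.1 * c p.2) * al a F p := by
      simp only [ex]
      rw [integral_add, integral_const_mul, integral_const_mul, hIF, integral_finsetSum]
      · congr 2
        apply Finset.sum_congr rfl
        intro p _
        rw [integral_const_mul]; rfl
      · intro p _; exact (hint p).const_mul _
      · exact hintF.const_mul _
      · exact (integrable_finsetSum _ (fun p _ => (hint p).const_mul _)).const_mul _
    -- Cauchy Schwarz
    have cs : |∑ p ∈ pairs m n, (c p.1 * c p.2) * al a F p| ≤ Q * (μF/4) := by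
      apply abs_le_of_sq_le_sq _ (by positivity)
      calc (∑ p ∈ pairs m n, (c p.1 * c p.2) * al a F p)^2 ≤
            (∑ p ∈ pairs m n, (c p.1 * c p.2)^2) * ∑ p ∈ pairs m n, (al a F p)^2 :=
              Finset.sum_mul_sq_le_sq_mul_sq _ _ _
        _ ≤ Q^2 * (μF/4)^2 := by
          apply mul_le_mul _ (hm n) (Finset.sum_nonneg (fun _ _ => sq_nonneg _)) (sq_nonneg _)
          have : Q^2 = ∑ p ∈ Finset.Ico m n ×ˢ Finset.Ico m n, (c p.1 * c p.2)^2 := by
            rw [sq, hQ, Finset.sum_mul_sum, Finset.sum_product]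
            apply Finset.sum_congr rfl; intro i _; apply Finset.sum_congr rfl; intro j _; ring
          rw [this]
          apply Finset.sum_le_sum_of_subset_of_nonneg (Finset.filter_subset _ _)
          intro _ _ _; exact sq_nonneg _
        _ = (Q * (μF/4))^2 := by ring
    rw [low] at up
    have := (abs_le.1 cs).1
    have h6 : Q * μF ≤ 8 * C^2 * μF := by nlinarith
    exact le_of_mul_le_mul_right h6 hμpos
  apply summable_of_sum_range_le (c := ∑ j ∈ Finset.range m, (c j)^2 + 8 * C^2) (fun _ => sq_nonneg _)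
  intro n
  rcases le_total m n with h | h
  · rw [← Finset.sum_range_add_sum_Ico _ h]
    linarith [bound n h]
  · calc ∑ j ∈ Finset.range n, (c j)^2 ≤ ∑ j ∈ Finset.range m, (c j)^2 := by
          apply Finset.sum_le_sum_of_subset_of_nonneg (Finset.range_mono h)
          intro _ _ _; exact sq_nonneg _
      _ ≤ _ := by nlinarith [sq_nonneg C]

/-- The set of reals at which the randomly signed initial sums stay bounded. -/
def bddSet (c : ℕ → ℝ) : Set ℝ := {x | ∃ C : ℝ, ∀ n, |∑ i ∈ Finset.range n, c i * rad i x| ≤ C}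

lemma bddSet_null (c : ℕ → ℝ) (hc : ¬ Summable (fun i => c i ^ 2)) : volume (bddSet c) = 0 := by
  set E : ℕ → Set ℝ := fun C => {x | ∀ n, |∑ i ∈ Finset.range n, c i * rad i x| ≤ C} with hE
  have hEm : ∀ C, MeasurableSet (E C) := by
    intro C
    have : E C = ⋂ n, {x | |∑ i ∈ Finset.range n, c i * rad i x| ≤ C} := by
      ext x; simp [hE]
    rw [this]
    apply MeasurableSet.iInter
    intro n
    apply measurableSet_le _ measurable_const
    apply Measurable.abs
    exact Finset.measurable_sum _ (fun i _ => measurable_const.mul (measurable_rad i))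
  have hnull : ∀ (C : ℕ) (k : ℤ), volume (E C ∩ Set.Ioc (k:ℝ) (k+1)) = 0 := by
    intro C k
    have h1 : mu (k:ℝ) (E C) = 0 := by
      by_contra h
      exact hc (main_bound k (hEm C) h c C (fun x hx n => hx n))
    rwa [mu, Measure.restrict_apply (hEm C)] at h1
  have hsub : bddSet c ⊆ ⋃ (C : ℕ) (k : ℤ), (E C ∩ Set.Ioc (k:ℝ) (k+1)) := by
    rintro x ⟨C, hC⟩
    obtain ⟨N, hN⟩ := exists_nat_ge C
    simp only [Set.mem_iUnion]
    refine ⟨N, ⌈x⌉ - 1, fun n => (hC n).trans hN, ?_, ?_⟩
    · push_cast; linarith [Int.ceil_lt_add_one x]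
    · push_cast; linarith [Int.le_ceil x]
  refine measure_mono_null hsub ?_
  simp only [measure_iUnion_null_iff]
  exact hnull

lemma r_locConst (t : ℝ) (h : ∀ k : ℤ, 2 * t ≠ k) : ∀ᶠ s in 𝓝 t, r s = r t := by
  have h1 : (⌊2 * t⌋ : ℝ) < 2 * t := lt_of_le_of_ne (Int.floor_le _) (fun e => h _ e.symm)
  have h2 : 2 * t < ⌊2 * t⌋ + 1 := Int.lt_floor_add_one _
  have c : Tendsto (fun s : ℝ => 2 * s) (𝓝 t) (𝓝 (2 * t)) := (continuous_const.mul continuous_id).tendsto t
  filter_upwards [c.eventually (lt_mem_nhds h1), c.eventually (gt_mem_nhds h2)] with s hs1 hs2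
  have : ⌊2 * s⌋ = ⌊2 * t⌋ := by
    rw [Int.floor_eq_iff]; exact ⟨hs1.le, hs2⟩
  unfold r; rw [this]

/-- dyadic rationals -/
def Dy : Set ℝ := ⋃ (n : ℕ) (k : ℤ), {(k:ℝ) / 2^(n+1)}

lemma Dy_null : volume Dy = 0 := by
  apply Set.Countable.measure_zero
  apply Set.countable_iUnion; intro n
  apply Set.countable_iUnion; intro k
  exact Set.countable_singleton _

lemma rad_locConst (x : ℝ) (hx : x ∉ Dy) (n : ℕ) : ∀ᶠ y in 𝓝 x, rad n y = rad n x := by
  have h : ∀ k : ℤ, 2 * (2^n * x) ≠ k := by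
    intro k hk
    apply hx
    simp only [Dy, Set.mem_iUnion, Set.mem_singleton_iff]
    refine ⟨n, k, ?_⟩
    rw [eq_div_iff (by positivity), ← hk]; ring
  have c : Tendsto (fun s : ℝ => 2^n * s) (𝓝 x) (𝓝 (2^n * x)) := (continuous_const.mul continuous_id).tendsto x
  exact c.eventually (r_locConst _ h)

/-- closed null sets covering `bddSet c` -/
def Ebar (c : ℕ → ℝ) (C : ℕ) : Set ℝ :=
  ⋂ n, closure {x | |∑ i ∈ Finset.range n, c i * rad i x| ≤ C}

lemma isClosed_Ebar (c : ℕ → ℝ) (C : ℕ) : IsClosed (Ebar c C) := isClosed_iInter (fun _ => isClosed_closure)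

lemma Ebar_sub (c : ℕ → ℝ) (C : ℕ) : Ebar c C ⊆ bddSet c ∪ Dy := by
  intro x hx
  by_cases hd : x ∈ Dy
  · exact Or.inr hd
  left
  refine ⟨C, fun n => ?_⟩
  have h1 := Set.mem_iInter.1 hx n
  have h2 : ∀ᶠ y in 𝓝 x, ∀ i ∈ Finset.range n, rad i y = rad i x := by
    rw [Filter.eventually_all_finset]
    intro i _
    exact rad_locConst x hd i
  rw [mem_closure_iff_frequently] at h1
  obtain ⟨y, hy1, hy2⟩ := (h1.and_eventually h2).exists
  have : ∑ i ∈ Finset.range n, c i * rad i x = ∑ i ∈ Finset.range n, c i * rad i y := by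
    apply Finset.sum_congr rfl
    intro i hi; rw [hy2 i hi]
  rw [this]; exact hy1

lemma Ebar_null (c : ℕ → ℝ) (hc : ¬ Summable (fun i => c i ^ 2)) (C : ℕ) : volume (Ebar c C) = 0 := by
  refine measure_mono_null (Ebar_sub c C) ?_
  rw [measure_union_null_iff]
  exact ⟨bddSet_null c hc, Dy_null⟩

lemma bddSet_sub (c : ℕ → ℝ) : bddSet c ⊆ ⋃ C, Ebar c C := by
  rintro x ⟨C, hC⟩
  obtain ⟨N, hN⟩ := exists_nat_ge C
  rw [Set.mem_iUnion]
  refine ⟨N, Set.mem_iInter.2 (fun n => subset_closure ((hC n).trans hN))⟩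

/-- `ℝ` is not a countable union of closed null sets. -/
lemma aleph0_lt_cov : ℵ₀ < covClosedNull := by
  have hmem : covClosedNull ∈ {κ | ∃ 𝒩 : Set (Set ℝ), (∀ N ∈ 𝒩, IsClosed N ∧ volume N = 0) ∧ ⋃₀ 𝒩 = Set.univ ∧ #𝒩 = κ} := by
    apply csInf_mem
    refine ⟨_, Set.range (fun x : ℝ => {x}), ?_, ?_, rfl⟩
    · rintro _ ⟨x, rfl⟩
      exact ⟨isClosed_singleton, Real.volume_singleton⟩
    · rw [Set.eq_univ_iff_forall]
      intro x
      exact ⟨{x}, ⟨x, rfl⟩, rfl⟩
  obtain ⟨𝒩, h1, h2, h3⟩ := hmem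
  rw [← h3]
  by_contra hcon
  rw [not_lt, mk_le_aleph0_iff] at hcon
  have : volume (Set.univ : Set ℝ) = 0 := by
    rw [← h2, Set.sUnion_eq_iUnion]
    rw [measure_iUnion_null_iff]
    intro N
    exact (h1 N.1 N.2).2
  simp at this

/-- boundedness of initial sums of convergent sequences -/
lemma SeriesConv.bdd {a : ℕ → ℝ} (h : SeriesConv a) : ∃ C, ∀ n, |∑ i ∈ Finset.range n, a i| ≤ C := by
  obtain ⟨l, hl⟩ := h
  obtain ⟨C, hC⟩ := (Metric.isBounded_range_of_tendsto _ hl).exists_norm_le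
  exact ⟨C, fun n => hC _ ⟨n, rfl⟩⟩

open Classical in
lemma sum_ind_eq_nth (X : Set ℕ) (a : ℕ → ℝ) (t : ℕ) :
    ∑ i ∈ Finset.range t, (if i ∈ X then a i else 0) =
      ∑ n ∈ Finset.range (Nat.count (fun i => i ∈ X) t), a (Nat.nth (fun i => i ∈ X) n) := by
  induction t with
  | zero => simp
  | succ t ih =>
    rw [Finset.sum_range_succ, ih, Nat.count_succ]
    by_cases h : t ∈ X
    · simp only [h, if_true]
      rw [Finset.sum_range_succ, Nat.nth_count h]
    · simp [h]

open Classical in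
/-- summation by parts -/
lemma abel (X : Set ℕ) (A : ℕ → ℝ) (t : ℕ) :
    ∑ i ∈ Finset.range t, (if i ∈ X then (A i - (if i = 0 then 0 else A (i-1))) else 0) =
     ∑ i ∈ Finset.range t, A i * ((if i ∈ X then 1 else 0) - (if i + 1 ∈ X then 1 else 0)) +
      (if t ∈ X then (if t = 0 then 0 else A (t-1)) else 0) := by
  induction t with
  | zero => simp
  | succ t ih =>
    rw [Finset.sum_range_succ, ih, Finset.sum_range_succ]
    by_cases h : t ∈ X <;> by_cases h' : t + 1 ∈ X <;> simp [h, h']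

/-- existence of a good subset for each series, so that `ssc` is the infimum of a nonempty set -/
lemma exists_sub (a : ℕ → ℚ) (ha : CondConv a) : ∃ X : Set ℕ, (X.Infinite ∧ Xᶜ.Infinite) ∧ SubConv X a := by
  obtain ⟨l, hl⟩ := ha.1
  have h0 : Tendsto (fun n => (a n : ℝ)) atTop (𝓝 0) := by
    have h1 := hl.comp (tendsto_add_atTop_nat 1)
    have h2 := h1.sub hl
    simp only [sub_self] at h2
    refine h2.congr (fun n => ?_)
    simp [Finset.sum_range_succ]
  have h1 : ∀ n : ℕ, ∀ᶠ k in atTop, |(a k : ℝ)| ≤ (1/2 : ℝ)^n := by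
    intro n
    have := (tendsto_order.1 ((tendsto_zero_iff_abs_tendsto_zero _).1 h0)).2 ((1/2 : ℝ)^n) (by positivity)
    filter_upwards [this] with k hk using hk.le
  obtain ⟨φ, hφ, hb⟩ := Filter.extraction_forall_of_eventually h1
  refine ⟨Set.range (fun n => φ (2*n)), ⟨?_, ?_⟩, ?_⟩
  · apply Set.infinite_range_of_injective
    intro m n h
    have := hφ.injective h
    omega
  · apply Set.Infinite.mono (s := Set.range (fun n => φ (2*n+1)))
    · rintro _ ⟨n, rfl⟩ ⟨m, hm⟩
      have := hφ.injective hm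
      omega
    · apply Set.infinite_range_of_injective
      intro m n h
      have := hφ.injective h
      omega
  · have hinf : (Set.range (fun n => φ (2*n))).Infinite := by
      apply Set.infinite_range_of_injective
      intro m n h
      have := hφ.injective h
      omega
    have hnth : Nat.nth (fun i => i ∈ Set.range (fun n => φ (2*n))) = fun n => φ (2*n) := by
      refine (StrictMono.range_inj (Nat.nth_strictMono (p := fun i => i ∈ Set.range (fun n => φ (2*n))) hinf)
        (fun m n h => hφ (by omega))).1 ?_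
      rw [Nat.range_nth_of_infinite (p := fun i => i ∈ Set.range (fun n => φ (2*n))) hinf]
      rfl
    unfold SubConv SeriesConv
    rw [hnth]
    have hs : Summable (fun n => (a (φ (2*n)) : ℝ)) := by
      apply Summable.of_norm_bounded (g := fun n => (1/2 : ℝ)^n) summable_geometric_two
      intro n
      refine (hb (2*n)).trans ?_
      apply pow_le_pow_of_le_one (by norm_num) (by norm_num)
      omega
    exact ⟨_, hs.hasSum.tendsto_sum_nat⟩

/-- alternating harmonic series is conditionally convergent -/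
lemma exists_condConv : ∃ a : ℕ → ℚ, CondConv a := by
  refine ⟨fun i => (-1 : ℚ)^i * (1 / (i + 1)) - (if i = 0 then 0 else (-1 : ℚ)^(i-1) * (1 / (((i-1 : ℕ) : ℚ) + 1))), ⟨0, ?_⟩, ?_⟩
  · rw [← tendsto_add_atTop_iff_nat 1]
    have h1 : ∀ n : ℕ, ∑ i ∈ Finset.range (n+1), (((-1 : ℚ)^i * (1 / (i + 1)) - (if i = 0 then 0 else (-1 : ℚ)^(i-1) * (1 / (((i-1 : ℕ) : ℚ) + 1))) : ℚ) : ℝ)
        = (-1)^n * (1 / ((n:ℝ) + 1)) := by
      intro n
      induction n with
      | zero => simp
      | succ n ih =>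
        rw [Finset.sum_range_succ, ih]
        simp only [Nat.add_sub_cancel, Nat.succ_ne_zero, if_false]
        push_cast
        ring
    simp only [h1]
    rw [tendsto_zero_iff_abs_tendsto_zero]
    have : (abs ∘ fun n : ℕ => (-1 : ℝ)^n * (1 / ((n:ℝ) + 1))) = fun n : ℕ => 1 / ((n:ℝ) + 1) := by
      ext n
      simp only [Function.comp, abs_mul, abs_pow, abs_neg, abs_one, one_pow, one_mul]
      exact abs_of_nonneg (by positivity)
    rw [this]
    exact tendsto_one_div_add_atTop_nhds_zero_nat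
  · rintro ⟨l, hl⟩
    have hs : Summable (fun i : ℕ => |(((-1 : ℚ)^i * (1 / (i + 1)) - (if i = 0 then 0 else (-1 : ℚ)^(i-1) * (1 / (((i-1 : ℕ) : ℚ) + 1))) : ℚ) : ℝ)|) := by
      obtain ⟨C, hC⟩ := SeriesConv.bdd ⟨l, hl⟩
      exact summable_of_sum_range_le (fun _ => abs_nonneg _) (fun n => (le_abs_self _).trans (hC n))
    have h2 : Summable (fun i : ℕ => 1 / ((i:ℝ) + 1)) := by
      apply Summable.of_nonneg_of_le (fun _ => by positivity) _ hs
      intro i
      rcases Nat.eq_zero_or_pos i with h | h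
      · subst h; simp
      · obtain ⟨j, rfl⟩ : ∃ j, i = j + 1 := ⟨i - 1, by omega⟩
        simp only [Nat.add_sub_cancel, Nat.succ_ne_zero, if_false]
        push_cast
        have e : ((-1:ℝ)^(j+1) * (1 / ((j:ℝ) + 1 + 1)) - (-1)^j * (1 / ((j:ℝ)+1))) = (-1)^(j+1) * (1 / ((j:ℝ) + 1 + 1) + 1 / ((j:ℝ)+1)) := by
          rw [pow_succ]; ring
        rw [e, abs_mul, abs_pow, abs_neg, abs_one, one_pow, one_mul, abs_of_nonneg (by positivity)]
        have : 0 ≤ 1 / ((j:ℝ)+1) := by positivity
        linarith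
    have h3 := (summable_nat_add_iff (f := fun i : ℕ => 1 / (i:ℝ)) 1).1 (by push_cast; exact h2)
    exact Real.not_summable_one_div_natCast h3

/-- boundary of an infinite coinfinite set is infinite -/
lemma boundary_infinite {X : Set ℕ} (h1 : X.Infinite) (h2 : Xᶜ.Infinite) :
    ∀ N, ∃ i ≥ N, ¬ (i ∈ X ↔ i + 1 ∈ X) := by
  intro N
  by_contra hcon
  push Not at hcon
  have h3 : ∀ k, N + k ∈ X ↔ N ∈ X := by
    intro k
    induction k with
    | zero => simp
    | succ k ih => rw [← ih, ← add_assoc]; exact (hcon (N+k) (by omega)).symm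
  obtain ⟨m, hm, hm'⟩ := h1.exists_gt N
  obtain ⟨m2, hm2, hm2'⟩ := h2.exists_gt N
  have e1 := h3 (m - N)
  have e2 := h3 (m2 - N)
  rw [Nat.add_sub_cancel' hm'.le] at e1
  rw [Nat.add_sub_cancel' hm2'.le] at e2
  exact hm2 (e2.2 (e1.1 hm))

open Classical in
theorem main_lower : min covClosedNull dNum ≤ ssc := by
  apply le_csInf
  · exact ⟨_, {X | X.Infinite ∧ Xᶜ.Infinite}, fun X hX => hX, fun a ha => exists_sub a ha, rfl⟩
  rintro κ ⟨𝒳, h𝒳, hwit, rfl⟩
  by_contra hlt
  rw [not_le, lt_min_iff] at hlt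
  obtain ⟨hN, hD⟩ := hlt
  -- the family is nonempty
  have hne : 𝒳.Nonempty := by
    obtain ⟨a, ha⟩ := exists_condConv
    obtain ⟨X, hX, _⟩ := hwit a ha
    exact ⟨X, hX⟩
  -- fast enumeration functions
  have hf : ∀ X ∈ 𝒳, ∀ m : ℕ, ∃ k : ℕ, (m+1)^2 ≤ ((Finset.range k).filter (fun i => m ≤ i ∧ ¬ (i ∈ X ↔ i + 1 ∈ X))).card := by
    intro X hX m
    have hinf : {i | m ≤ i ∧ ¬ (i ∈ X ↔ i + 1 ∈ X)}.Infinite := by
      rw [Set.infinite_iff_exists_gt]
      intro N
      obtain ⟨i, hi, hi'⟩ := boundary_infinite (h𝒳 X hX).1 (h𝒳 X hX).2 (max m (N+1))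
      exact ⟨i, ⟨by omega, hi'⟩, by omega⟩
    obtain ⟨t, ht, htc⟩ := hinf.exists_subset_card_eq ((m+1)^2)
    refine ⟨t.sup id + 1, ?_⟩
    rw [← htc]
    apply Finset.card_le_card
    intro i hi
    rw [Finset.mem_filter, Finset.mem_range]
    exact ⟨Nat.lt_succ_of_le (Finset.le_sup (f := id) hi), ht hi⟩
  choose! f hf using hf
  obtain ⟨g, hg⟩ : ∃ g : ℕ → ℕ, ∀ X ∈ 𝒳, ∃ᶠ m in atTop, f X m < g m := by
    by_contra hcon
    push Not at hcon
    have : dNum ≤ #(f '' 𝒳) := by
      apply csInf_le (OrderBot.bddBelow _)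
      refine ⟨f '' 𝒳, fun h => ?_, rfl⟩
      obtain ⟨X, hX, hX'⟩ := hcon h
      refine ⟨f X, ⟨X, hX, rfl⟩, ?_⟩
      exact hX'
    exact absurd (this.trans mk_image_le) (not_le.2 hD)
  -- the rate
  set g' : ℕ → ℕ := fun m => max (g m) (m+1) with hg'
  have hex : ∀ i, ∃ m, i < g' m := fun i => ⟨i, by simp [hg']⟩
  set ν : ℕ → ℕ := fun i => Nat.find (hex i) with hν
  have hνle : ∀ i m, i < g' m → ν i ≤ m := fun i m h => Nat.find_min' (hex i) h
  have hνtop : Tendsto ν atTop atTop := by
    rw [tendsto_atTop]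
    intro b
    filter_upwards [eventually_ge_atTop ((Finset.range b).sup g')] with i hi
    by_contra hcon
    push Not at hcon
    have h1 : i < g' (ν i) := Nat.find_spec (hex i)
    have h2 : g' (ν i) ≤ (Finset.range b).sup g' := Finset.le_sup (f := g') (Finset.mem_range.2 hcon)
    omega
  set ε : ℕ → ℚ := fun i => 1 / ((ν i : ℚ) + 1) with hε
  have hεtend : Tendsto (fun i => (ε i : ℝ)) atTop (𝓝 0) := by
    have := (tendsto_one_div_add_atTop_nhds_zero_nat (𝕜 := ℝ)).comp hνtop
    refine this.congr (fun i => ?_)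
    simp [hε]
  have hεpos : ∀ i, 0 < (ε i : ℝ) := by
    intro i; simp only [hε]; push_cast; positivity
  have hεle : ∀ i, (ε i : ℝ) ≤ 1 := by
    intro i; simp only [hε]; push_cast
    rw [div_le_one (by positivity)]; linarith [(Nat.cast_nonneg (ν i) : (0:ℝ) ≤ ν i)]
  -- coefficient sequences
  set c : Set ℕ → ℕ → ℝ := fun X i => (ε i : ℝ) * ((if i ∈ X then 1 else 0) - (if i + 1 ∈ X then 1 else 0)) with hc
  have hcns : ∀ X ∈ 𝒳, ¬ Summable (fun i => c X i ^ 2) := by
    intro X hX hs
    obtain ⟨s, hs⟩ := summable_iff_vanishing_norm.1 hs 1 one_pos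
    obtain ⟨m, hm1, hm2⟩ := ((hg X hX).and_eventually (eventually_ge_atTop (s.sup id + 1))).exists
    have h1 := hs ((Finset.range (f X m)).filter (fun i => m ≤ i ∧ ¬ (i ∈ X ↔ i + 1 ∈ X))) ?_
    · have h2 : (1:ℝ) ≤ ∑ i ∈ (Finset.range (f X m)).filter (fun i => m ≤ i ∧ ¬ (i ∈ X ↔ i + 1 ∈ X)), c X i ^ 2 := by
        have h3 : ∀ i ∈ (Finset.range (f X m)).filter (fun i => m ≤ i ∧ ¬ (i ∈ X ↔ i + 1 ∈ X)), 1 / ((m:ℝ)+1)^2 ≤ c X i ^ 2 := by
          intro i hi
          rw [Finset.mem_filter, Finset.mem_range] at hi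
          obtain ⟨hi1, hi2, hi3⟩ := hi
          have h4 : ν i ≤ m := hνle i m (by simp only [hg']; omega)
          have h5 : c X i ^ 2 = (ε i : ℝ)^2 := by
            simp only [hc]
            by_cases ha : i ∈ X <;> by_cases hb : i + 1 ∈ X <;> simp_all
          rw [h5]
          simp only [hε]
          push_cast
          rw [div_pow, one_pow]
          apply one_div_le_one_div_of_le (by positivity)
          have : (ν i : ℝ) ≤ m := by exact_mod_cast h4
          gcongr
        have h4 := Finset.card_nsmul_le_sum _ _ _ h3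
        refine le_trans ?_ h4
        rw [nsmul_eq_mul]
        have h5 : (((m+1)^2 : ℕ) : ℝ) ≤ (((Finset.range (f X m)).filter (fun i => m ≤ i ∧ ¬ (i ∈ X ↔ i + 1 ∈ X))).card : ℝ) := by
          exact_mod_cast hf X hX m
        push_cast at h5
        have h6 : (0:ℝ) < ((m:ℝ)+1)^2 := by positivity
        rw [mul_one_div, le_div_iff₀ h6]
        linarith
      exact absurd h1 (not_lt.2 (h2.trans (le_abs_self _)))
    · rw [Finset.disjoint_left]
      intro i hi his
      rw [Finset.mem_filter] at hi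
      have := Finset.le_sup (f := id) his
      simp only [id] at this
      omega
  -- a random point
  obtain ⟨x, hx⟩ : ∃ x : ℝ, ∀ X ∈ 𝒳, x ∉ bddSet (c X) := by
    by_contra hcon
    push Not at hcon
    have h1 : covClosedNull ≤ #((fun q : Set ℕ × ℕ => Ebar (c q.1) q.2) '' (𝒳 ×ˢ Set.univ)) := by
      apply csInf_le (OrderBot.bddBelow _)
      refine ⟨(fun q : Set ℕ × ℕ => Ebar (c q.1) q.2) '' (𝒳 ×ˢ Set.univ), ?_, ?_, rfl⟩
      · rintro _ ⟨⟨X, C⟩, ⟨hX, -⟩, rfl⟩
        exact ⟨isClosed_Ebar _ _, Ebar_null _ (hcns X hX) C⟩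
      · rw [Set.eq_univ_iff_forall]
        intro x
        obtain ⟨X, hX, hX'⟩ := hcon x
        obtain ⟨C, hC⟩ := Set.mem_iUnion.1 (bddSet_sub _ hX')
        exact ⟨_, ⟨(X, C), ⟨hX, Set.mem_univ _⟩, rfl⟩, hC⟩
    have h2 : #((fun q : Set ℕ × ℕ => Ebar (c q.1) q.2) '' (𝒳 ×ˢ Set.univ)) ≤ max #𝒳 ℵ₀ := by
      refine mk_image_le.trans ?_
      rw [mk_setProd]
      refine (mul_le_max _ _).trans ?_
      simp
    rcases le_max_iff.1 (h1.trans h2) with h3 | h3
    · exact absurd h3 (not_le.2 hN)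
    · exact absurd h3 (not_le.2 aleph0_lt_cov)
  -- the series
  set A : ℕ → ℚ := fun i => ε i * (if Even ⌊2 * (2^i * x)⌋ then 1 else -1) with hA
  have hAr : ∀ i, (A i : ℝ) = (ε i : ℝ) * rad i x := by
    intro i
    simp only [hA, rad, r]
    push_cast
    split_ifs <;> simp
  set a : ℕ → ℚ := fun i => A i - (if i = 0 then 0 else A (i-1)) with ha
  have har : ∀ i, (a i : ℝ) = (A i : ℝ) - (if i = 0 then 0 else (A (i-1) : ℝ)) := by
    intro i; simp only [ha]; push_cast; split_ifs <;> simp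
  have hAabs : ∀ i, |(A i : ℝ)| = (ε i : ℝ) := by
    intro i; rw [hAr, abs_mul, rad_abs, mul_one, abs_of_pos (hεpos i)]
  have hconv : SeriesConv (fun i => (a i : ℝ)) := by
    refine ⟨0, ?_⟩
    rw [← tendsto_add_atTop_iff_nat 1]
    have h1 : ∀ n : ℕ, ∑ i ∈ Finset.range (n+1), (a i : ℝ) = (A n : ℝ) := by
      intro n
      induction n with
      | zero => simp [har]
      | succ n ih => rw [Finset.sum_range_succ, ih, har]; simp
    simp only [h1]
    rw [tendsto_zero_iff_abs_tendsto_zero]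
    refine hεtend.congr (fun n => ?_)
    simp [hAabs]
  -- if the initial sums along `X` are bounded we get a contradiction
  have hkey : ∀ X ∈ 𝒳, ¬ ∃ C, ∀ t, |∑ i ∈ Finset.range t, (if i ∈ X then (a i : ℝ) else 0)| ≤ C := by
    rintro X hX ⟨C, hC⟩
    apply hx X hX
    refine ⟨C + 1, fun t => ?_⟩
    have h1 := abel X (fun i => (A i : ℝ)) t
    simp only [← har] at h1
    have h2 : ∑ i ∈ Finset.range t, c X i * rad i x =
        ∑ i ∈ Finset.range t, (A i : ℝ) * ((if i ∈ X then 1 else 0) - (if i + 1 ∈ X then 1 else 0)) := by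
      apply Finset.sum_congr rfl
      intro i _
      rw [hAr]; simp only [hc]; ring
    rw [h2]
    have h3 : |(if t ∈ X then (if t = 0 then 0 else (A (t-1) : ℝ)) else 0)| ≤ 1 := by
      split_ifs
      · simp
      · rw [hAabs]; exact hεle _
      · simp
    have h4 := hC t
    rw [h1] at h4
    calc |∑ i ∈ Finset.range t, (A i : ℝ) * ((if i ∈ X then 1 else 0) - (if i + 1 ∈ X then 1 else 0))|
        = |(∑ i ∈ Finset.range t, (A i : ℝ) * ((if i ∈ X then 1 else 0) - (if i + 1 ∈ X then 1 else 0)) +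
            (if t ∈ X then (if t = 0 then 0 else (A (t-1) : ℝ)) else 0)) -
            (if t ∈ X then (if t = 0 then 0 else (A (t-1) : ℝ)) else 0)| := by rw [add_sub_cancel_right]
      _ ≤ _ := abs_sub _ _
      _ ≤ C + 1 := add_le_add h4 h3
  have hcc : CondConv a := by
    refine ⟨hconv, fun habs => ?_⟩
    obtain ⟨C, hC⟩ := habs.bdd
    obtain ⟨X, hX⟩ := hne
    apply hkey X hX
    refine ⟨C, fun t => ?_⟩
    calc |∑ i ∈ Finset.range t, (if i ∈ X then (a i : ℝ) else 0)|
        ≤ ∑ i ∈ Finset.range t, |(if i ∈ X then (a i : ℝ) else 0)| := Finset.abs_sum_le_sum_abs _ _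
      _ ≤ ∑ i ∈ Finset.range t, |(a i : ℝ)| := by
        apply Finset.sum_le_sum
        intro i _
        split_ifs
        · exact le_rfl
        · simp
      _ ≤ abs (∑ i ∈ Finset.range t, |(a i : ℝ)|) := le_abs_self _
      _ ≤ C := hC t
  obtain ⟨X, hX, hsub⟩ := hwit a hcc
  obtain ⟨C, hC⟩ := SeriesConv.bdd hsub
  apply hkey X hX
  refine ⟨C, fun t => ?_⟩
  rw [sum_ind_eq_nth X (fun i => (a i : ℝ)) t]
  exact hC _

end Pool.Agent.Helper79.Ssc
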