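import Mathlib
import Pool.Agent.Helper79.SscDefs

/-!
# An upper bound for the convergent-subseries number

`ssc` is the least size of a family of infinite coinfinite sets such that every conditionally
convergent series of rationals has a convergent subseries along a member of the family.
For every `h : ℕ → ℕ` with `h k ≥ 1` we prove in ZFC that `ssc ≤ ploc b h` where
`b k = (2^(k+1)+1)^((2^(k+1)+1)^(h k)+1)` and `ploc b h` is the least number of slaloms `(K, S)`
with infinite domain `K` and `|S k| ≤ h k` such that every function below `b` is eventually captured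
on `K` by one of them.

Idea: cut `ℕ` into long blocks; the rounded initial sums of the series on the `k`-th block are coded by
a number below `b k`; a slalom guessing at most `h k` codes yields, by the pigeonhole principle, two
points of the block at which all guessed initial sums nearly agree.  The union of the intervals
between these points is a set along which every captured series has a convergent subseries.
-/

namespace Pool.Agent.Helper79.Ssc.Upper
open Pool.Agent.Helper79.Ssc

open Filter Topology MeasureTheory Cardinal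

/-- boundedness of initial sums of convergent sequences -/
lemma seriesConv_bdd {a : ℕ → ℝ} (h : SeriesConv a) : ∃ C, ∀ n, |∑ i ∈ Finset.range n, a i| ≤ C := by
  obtain ⟨l, hl⟩ := h
  obtain ⟨C, hC⟩ := (Metric.isBounded_range_of_tendsto _ hl).exists_norm_le
  exact ⟨C, fun n => hC _ ⟨n, rfl⟩⟩

open Classical in
lemma sum_ind_eq_nth (X : Set ℕ) (a : ℕ → ℝ) (t : ℕ) :
    ∑ i ∈ Finset.range t, (if i ∈ X then a i else 0) =
      ∑ n ∈ Finset.range (Nat.count (fun i => i ∈ X) t), a (Nat.nth (fun i => i ∈ X) n) := by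
  induction t with
  | zero => simp
  | succ t ih =>
    rw [Finset.sum_range_succ, ih, Nat.count_succ]
    by_cases h : t ∈ X
    · simp only [h, if_true]
      rw [Finset.sum_range_succ, Nat.nth_count h]
    · simp [h]

open Classical in
/-- summation by parts -/
lemma abel (X : Set ℕ) (A : ℕ → ℝ) (t : ℕ) :
    ∑ i ∈ Finset.range t, (if i ∈ X then (A i - (if i = 0 then 0 else A (i-1))) else 0) =
     ∑ i ∈ Finset.range t, A i * ((if i ∈ X then 1 else 0) - (if i + 1 ∈ X then 1 else 0)) +
      (if t ∈ X then (if t = 0 then 0 else A (t-1)) else 0) := by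
  induction t with
  | zero => simp
  | succ t ih =>
    rw [Finset.sum_range_succ, ih, Finset.sum_range_succ]
    by_cases h : t ∈ X <;> by_cases h' : t + 1 ∈ X <;> simp [h, h']

/-- existence of a good subset for each series, so that `ssc` is the infimum of a nonempty set -/
lemma exists_sub (a : ℕ → ℚ) (ha : CondConv a) : ∃ X : Set ℕ, (X.Infinite ∧ Xᶜ.Infinite) ∧ SubConv X a := by
  obtain ⟨l, hl⟩ := ha.1
  have h0 : Tendsto (fun n => (a n : ℝ)) atTop (𝓝 0) := by
    have h1 := hl.comp (tendsto_add_atTop_nat 1)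
    have h2 := h1.sub hl
    simp only [sub_self] at h2
    refine h2.congr (fun n => ?_)
    simp [Finset.sum_range_succ]
  have h1 : ∀ n : ℕ, ∀ᶠ k in atTop, |(a k : ℝ)| ≤ (1/2 : ℝ)^n := by
    intro n
    have := (tendsto_order.1 ((tendsto_zero_iff_abs_tendsto_zero _).1 h0)).2 ((1/2 : ℝ)^n) (by positivity)
    filter_upwards [this] with k hk using hk.le
  obtain ⟨φ, hφ, hb⟩ := Filter.extraction_forall_of_eventually h1
  refine ⟨Set.range (fun n => φ (2*n)), ⟨?_, ?_⟩, ?_⟩
  · apply Set.infinite_range_of_injective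
    intro m n h
    have := hφ.injective h
    omega
  · apply Set.Infinite.mono (s := Set.range (fun n => φ (2*n+1)))
    · rintro _ ⟨n, rfl⟩ ⟨m, hm⟩
      have := hφ.injective hm
      omega
    · apply Set.infinite_range_of_injective
      intro m n h
      have := hφ.injective h
      omega
  · have hinf : (Set.range (fun n => φ (2*n))).Infinite := by
      apply Set.infinite_range_of_injective
      intro m n h
      have := hφ.injective h
      omega
    have hnth : Nat.nth (fun i => i ∈ Set.range (fun n => φ (2*n))) = fun n => φ (2*n) := by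
      refine (StrictMono.range_inj (Nat.nth_strictMono (p := fun i => i ∈ Set.range (fun n => φ (2*n))) hinf)
        (fun m n h => hφ (by omega))).1 ?_
      rw [Nat.range_nth_of_infinite (p := fun i => i ∈ Set.range (fun n => φ (2*n))) hinf]
      rfl
    unfold SubConv SeriesConv
    rw [hnth]
    have hs : Summable (fun n => (a (φ (2*n)) : ℝ)) := by
      apply Summable.of_norm_bounded (g := fun n => (1/2 : ℝ)^n) summable_geometric_two
      intro n
      refine (hb (2*n)).trans ?_
      apply pow_le_pow_of_le_one (by norm_num) (by norm_num)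
      omega
    exact ⟨_, hs.hasSum.tendsto_sum_nat⟩

/-- `W k` is the number of values used to round at precision `2^{-k}`. -/
def W (k : ℕ) : ℕ := 2^(k+1) + 1

/-- block lengths -/
def L (h : ℕ → ℕ) (k : ℕ) : ℕ := W k ^ (h k) + 1

/-- block starts -/
def J (h : ℕ → ℕ) (k : ℕ) : ℕ := ∑ i ∈ Finset.range k, L h i

/-- the bounding function -/
def bnd (h : ℕ → ℕ) (k : ℕ) : ℕ := W k ^ (L h k)

lemma J_succ (h : ℕ → ℕ) (k : ℕ) : J h (k+1) = J h k + L h k := Finset.sum_range_succ _ _

lemma L_pos (h : ℕ → ℕ) (k : ℕ) : 0 < L h k := Nat.succ_pos _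

lemma J_lt (h : ℕ → ℕ) (k : ℕ) : J h k < J h (k+1) := by rw [J_succ]; have := L_pos h k; omega

lemma J_strictMono (h : ℕ → ℕ) : StrictMono (J h) := strictMono_nat_of_lt_succ (J_lt h)

lemma exists_block (h : ℕ → ℕ) (t : ℕ) : ∃ κ, J h κ ≤ t ∧ t < J h (κ+1) := by
  induction t with
  | zero => exact ⟨0, by simp [J], by have := J_lt h 0; omega⟩
  | succ t ih =>
    obtain ⟨κ, h1, h2⟩ := ih
    by_cases h3 : t + 1 < J h (κ+1)
    · exact ⟨κ, by omega, h3⟩
    · refine ⟨κ+1, by omega, ?_⟩
      have := J_lt h (κ+1)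
      omega

instance (h : ℕ → ℕ) (k : ℕ) : Nonempty (Fin (L h k)) := ⟨⟨0, L_pos h k⟩⟩

/-- pigeonhole -/
lemma exists_pair (h : ℕ → ℕ) (k : ℕ) (S : Finset ℕ) (hS : S.card ≤ h k) :
    ∃ p q : Fin (L h k), p < q ∧ ∀ f : Fin (L h k) → Fin (W k), (finFunctionFinEquiv f : ℕ) ∈ S → f p = f q := by
  classical
  set T : Finset (Fin (L h k) → Fin (W k)) := Finset.univ.filter (fun f => (finFunctionFinEquiv f : ℕ) ∈ S) with hT
  have hTc : T.card ≤ h k := by
    refine le_trans ?_ hS
    apply Finset.card_le_card_of_injOn (fun f => (finFunctionFinEquiv f : ℕ))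
    · intro f hf
      exact (Finset.mem_filter.1 hf).2
    · intro f _ g _ hfg
      exact finFunctionFinEquiv.injective (Fin.ext hfg)
  have hcard : Fintype.card (T → Fin (W k)) < Fintype.card (Fin (L h k)) := by
    rw [Fintype.card_fun, Fintype.card_fin, Fintype.card_fin, Fintype.card_coe]
    unfold L
    refine Nat.lt_succ_of_le (Nat.pow_le_pow_right (Nat.succ_pos _) hTc)
  obtain ⟨p, q, hpq, he⟩ := Fintype.exists_ne_map_eq_of_card_lt
    (fun (t : Fin (L h k)) => fun (f : T) => f.1 t) hcard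
  have key : ∀ f : Fin (L h k) → Fin (W k), (finFunctionFinEquiv f : ℕ) ∈ S → f p = f q := by
    intro f hf
    exact congrFun he ⟨f, Finset.mem_filter.2 ⟨Finset.mem_univ _, hf⟩⟩
  rcases lt_or_gt_of_ne hpq with h1 | h1
  · exact ⟨p, q, h1, key⟩
  · exact ⟨q, p, h1, fun f hf => (key f hf).symm⟩

/-- rounding -/
noncomputable def rnd (k : ℕ) (y : ℝ) : Fin (W k) :=
  ⟨min ⌊2^k * (y + 1)⌋₊ (2^(k+1)), by unfold W; omega⟩

lemma rnd_close (k : ℕ) {y z : ℝ} (hy : |y| ≤ 1) (hz : |z| ≤ 1) (h : rnd k y = rnd k z) :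
    |y - z| ≤ (1/2)^k := by
  have hy' := abs_le.1 hy
  have hz' := abs_le.1 hz
  have aux : ∀ w : ℝ, -1 ≤ w → w ≤ 1 → ⌊2^k * (w + 1)⌋₊ ≤ 2^(k+1) := by
    intro w _ hw2
    apply Nat.floor_le_of_le
    push_cast
    rw [pow_succ]
    have : (0:ℝ) < 2^k := by positivity
    nlinarith
  have h1 : ⌊(2:ℝ)^k * (y + 1)⌋₊ = ⌊(2:ℝ)^k * (z + 1)⌋₊ := by
    have := congrArg Fin.val h
    simp only [rnd] at this
    rwa [min_eq_left (aux y hy'.1 hy'.2), min_eq_left (aux z hz'.1 hz'.2)] at this
  have p2 : (0:ℝ) < 2^k := by positivity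
  have a1 := Nat.floor_le (a := (2:ℝ)^k * (y + 1)) (by nlinarith)
  have a2 := Nat.lt_floor_add_one ((2:ℝ)^k * (y + 1))
  have b1 := Nat.floor_le (a := (2:ℝ)^k * (z + 1)) (by nlinarith)
  have b2 := Nat.lt_floor_add_one ((2:ℝ)^k * (z + 1))
  rw [h1] at a1 a2
  have e : ((1:ℝ)/2)^k = 1 / 2^k := by rw [div_pow, one_pow]
  rw [e, le_div_iff₀ p2]
  rcases abs_cases (y - z) with ⟨h3, _⟩ | ⟨h3, _⟩ <;> rw [h3] <;> nlinarith

open Classical in
/-- contribution of one block -/
lemma block_sum (a : ℕ → ℝ) (A : ℕ → ℝ) (hA : ∀ i, A (i+1) - A i = a i) (j p q : ℕ) (hjp : j ≤ p) (hpq : p < q)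
    (X : Set ℕ) (t : ℕ) (htj : j ≤ t) (hX : ∀ i, j ≤ i → i < t → (i ∈ X ↔ p ≤ i ∧ i < q)) :
    ∑ i ∈ Finset.Ico j t, (if i ∈ X then a i else 0) = A (min q t) - A (min p t) := by
  induction t, htj using Nat.le_induction with
  | base =>
    simp
    rw [min_eq_right (by omega : j ≤ q), min_eq_right (by omega : j ≤ p)]; simp
  | succ t htj ih =>
    rw [Finset.sum_Ico_succ_top htj, ih (fun i h1 h2 => hX i h1 (by omega))]
    have hXt := hX t htj (by omega)
    rcases lt_or_ge t p with h | h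
    · have h1 : t ∉ X := fun hc => by have := hXt.1 hc; omega
      rw [if_neg h1, min_eq_right (by omega : t ≤ q), min_eq_right (by omega : t ≤ p),
        min_eq_right (by omega : t+1 ≤ q), min_eq_right (by omega : t+1 ≤ p)]
      ring
    · rcases lt_or_ge t q with h' | h'
      · have h1 : t ∈ X := hXt.2 ⟨h, h'⟩
        rw [if_pos h1, min_eq_right (by omega : t ≤ q), min_eq_left (by omega : p ≤ t),
          min_eq_right (by omega : t+1 ≤ q), min_eq_left (by omega : p ≤ t+1), ← hA]
        ring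
      · have h1 : t ∉ X := fun hc => by have := hXt.1 hc; omega
        rw [if_neg h1, min_eq_left (by omega : q ≤ t), min_eq_left (by omega : p ≤ t),
          min_eq_left (by omega : q ≤ t+1), min_eq_left (by omega : p ≤ t+1)]
        ring

open Classical in
/-- the main convergence statement -/
lemma conv_aux (h : ℕ → ℕ) (K : Set ℕ) (p q : ℕ → ℕ) (hp : ∀ k, J h k ≤ p k) (hpq : ∀ k, p k < q k)
    (hq : ∀ k, q k < J h (k+1)) (a A : ℕ → ℝ) (hA : ∀ i, A (i+1) - A i = a i)
    (hA0 : Tendsto A atTop (𝓝 0)) (hd : ∀ᶠ k in atTop, k ∈ K → |A (q k) - A (p k)| ≤ (1/2)^k)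
    (X : Set ℕ) (hX : ∀ i, i ∈ X ↔ ∃ k ∈ K, p k ≤ i ∧ i < q k) :
    ∃ l, Tendsto (fun t => ∑ i ∈ Finset.range t, (if i ∈ X then a i else 0)) atTop (𝓝 l) := by
  have hXb : ∀ κ i, J h κ ≤ i → i < J h (κ+1) → (i ∈ X ↔ κ ∈ K ∧ p κ ≤ i ∧ i < q κ) := by
    intro κ i h1 h2
    rw [hX]
    constructor
    · rintro ⟨k, hk, hk1, hk2⟩
      have e : k = κ := by
        by_contra hne
        rcases lt_or_gt_of_ne hne with h3 | h3
        · have := (J_strictMono h).monotone (show k+1 ≤ κ from h3)
          have := hq k; omega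
        · have := (J_strictMono h).monotone (show κ+1 ≤ k from h3)
          have := hp k; omega
      subst e
      exact ⟨hk, hk1, hk2⟩
    · rintro ⟨hk, h3⟩
      exact ⟨κ, hk, h3⟩
  set T : ℕ → ℝ := fun t => ∑ i ∈ Finset.range t, (if i ∈ X then a i else 0) with hT
  set d : ℕ → ℝ := fun k => if k ∈ K then A (q k) - A (p k) else 0 with hdd
  have hblock : ∀ κ t, J h κ ≤ t → t ≤ J h (κ+1) →
      T t = T (J h κ) + (if κ ∈ K then A (min (q κ) t) - A (min (p κ) t) else 0) := by
    intro κ t h1 h2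
    simp only [hT]
    rw [← Finset.sum_range_add_sum_Ico _ h1]
    congr 1
    by_cases hκ : κ ∈ K
    · rw [if_pos hκ]
      apply block_sum a A hA _ _ _ (hp κ) (hpq κ) X t h1
      intro i h3 h4
      rw [hXb κ i h3 (by omega)]
      simp [hκ]
    · rw [if_neg hκ]
      apply Finset.sum_eq_zero
      intro i hi
      rw [Finset.mem_Ico] at hi
      rw [if_neg]
      rw [hXb κ i hi.1 (by omega)]
      simp [hκ]
  have hTJ : ∀ κ, T (J h κ) = ∑ k ∈ Finset.range κ, d k := by
    intro κ
    induction κ with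
    | zero => simp [hT, J]
    | succ κ ih =>
      rw [Finset.sum_range_succ, ← ih, hblock κ (J h (κ+1)) (J_lt h κ).le le_rfl]
      congr 1
      simp only [hdd]
      by_cases hκ : κ ∈ K
      · rw [if_pos hκ, if_pos hκ, min_eq_left (hq κ).le, min_eq_left ((hpq κ).trans (hq κ)).le]
      · rw [if_neg hκ, if_neg hκ]
  have hsum : Summable d := by
    apply Summable.of_norm_bounded_eventually_nat (g := fun n => (1/2 : ℝ)^n) summable_geometric_two
    filter_upwards [hd] with k hk
    simp only [hdd]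
    by_cases hκ : k ∈ K
    · rw [if_pos hκ]; exact hk hκ
    · rw [if_neg hκ]; simp
  refine ⟨∑' k, d k, ?_⟩
  have hlim := hsum.hasSum.tendsto_sum_nat
  rw [Metric.tendsto_atTop] at hlim hA0 ⊢
  intro ε hε
  obtain ⟨k0, hk0⟩ := hlim (ε/3) (by linarith)
  obtain ⟨n0, hn0⟩ := hA0 (ε/3) (by linarith)
  refine ⟨J h (k0 + n0), fun t ht => ?_⟩
  obtain ⟨κ, h1, h2⟩ := exists_block h t
  have hκ : k0 + n0 ≤ κ := by
    by_contra hcon
    have := (J_strictMono h).monotone (show κ+1 ≤ k0 + n0 by omega)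
    omega
  rw [hblock κ t h1 h2.le, hTJ]
  have e1 := hk0 κ (by omega)
  have hκJ : κ ≤ J h κ := (J_strictMono h).id_le κ
  have e2 : |if κ ∈ K then A (min (q κ) t) - A (min (p κ) t) else 0| ≤ ε/3 + ε/3 := by
    by_cases hκ' : κ ∈ K
    · rw [if_pos hκ']
      have := hp κ
      have := hpq κ
      have f1 := hn0 (min (q κ) t) (by omega)
      have f2 := hn0 (min (p κ) t) (by omega)
      rw [Real.dist_eq, sub_zero] at f1 f2
      exact (abs_sub _ _).trans (by linarith)
    · rw [if_neg hκ']; simp; linarith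
  rw [Real.dist_eq] at e1 ⊢
  calc |∑ k ∈ Finset.range κ, d k + (if κ ∈ K then A (min (q κ) t) - A (min (p κ) t) else 0) - ∑' k, d k|
      = |(∑ k ∈ Finset.range κ, d k - ∑' k, d k) + (if κ ∈ K then A (min (q κ) t) - A (min (p κ) t) else 0)| := by
        congr 1; ring
    _ ≤ _ := abs_add_le _ _
    _ < ε := by linarith

theorem main_upper (h : ℕ → ℕ) (hh : ∀ k, 1 ≤ h k) : ssc ≤ ploc (bnd h) h := by
  apply le_csInf
  · -- all one-point slaloms
    refine ⟨_, {q | q.1.Infinite ∧ ∀ k, (q.2 k).card ≤ h k}, fun q hq => hq, fun x hx => ?_, rfl⟩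
    refine ⟨(Set.univ, fun k => {x k}), ⟨Set.infinite_univ, fun k => by simpa using hh k⟩, ?_⟩
    simp
  rintro κ ⟨𝒮, h𝒮, hwit, rfl⟩
  -- choose pairs
  have hch : ∀ s : Set ℕ × (ℕ → Finset ℕ), ∀ k : ℕ, s ∈ 𝒮 → ∃ pq : Fin (L h k) × Fin (L h k), pq.1 < pq.2 ∧
      ∀ f : Fin (L h k) → Fin (W k), (finFunctionFinEquiv f : ℕ) ∈ s.2 k → f pq.1 = f pq.2 := by
    intro s k hs
    obtain ⟨p, q, h1, h2⟩ := exists_pair h k (s.2 k) ((h𝒮 s hs).2 k)
    exact ⟨(p, q), h1, h2⟩
  choose! pq hpq1 hpq2 using hch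
  set XX : Set ℕ × (ℕ → Finset ℕ) → Set ℕ := fun s =>
    {i | ∃ k ∈ s.1, J h k + (pq s k).1 ≤ i ∧ i < J h k + (pq s k).2} with hXX
  refine le_trans (csInf_le (OrderBot.bddBelow _) ⟨XX '' 𝒮, ?_, ?_, rfl⟩) mk_image_le
  · rintro _ ⟨s, hs, rfl⟩
    have hK := (h𝒮 s hs).1
    have hb : ∀ k, J h k + ((pq s k).2 : ℕ) < J h (k+1) := by
      intro k; rw [J_succ]; have := (pq s k).2.2; omega
    constructor
    · rw [Set.infinite_iff_exists_gt]
      intro N
      obtain ⟨k, hk, hk'⟩ := hK.exists_gt N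
      refine ⟨J h k + (pq s k).1, ⟨k, hk, le_rfl, ?_⟩, ?_⟩
      · have := hpq1 s k hs
        rw [Fin.lt_def] at this
        omega
      · have : k ≤ J h k := (J_strictMono h).id_le k
        omega
    · rw [Set.infinite_iff_exists_gt]
      intro N
      obtain ⟨k, hk, hk'⟩ := hK.exists_gt N
      refine ⟨J h k + (pq s k).2, ?_, ?_⟩
      · rintro ⟨k', hk1, hk2, hk3⟩
        have h0 := hb k
        have h0' := hb k'
        rcases lt_trichotomy k k' with h1 | h1 | h1
        · have := (J_strictMono h).monotone (show k+1 ≤ k' from h1)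
          omega
        · subst h1; omega
        · have := (J_strictMono h).monotone (show k'+1 ≤ k from h1)
          omega
      · have : k ≤ J h k := (J_strictMono h).id_le k
        omega
  · intro a ha
    obtain ⟨l, hl⟩ := ha.1
    set A : ℕ → ℝ := fun n => ∑ i ∈ Finset.range n, (a i : ℝ) - l with hA
    have hA0 : Tendsto A atTop (𝓝 0) := by
      have := hl.sub_const l
      simpa using this
    have hAs : ∀ i, A (i+1) - A i = (a i : ℝ) := by
      intro i; simp only [hA, Finset.sum_range_succ]; ring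
    obtain ⟨s, hs, hloc⟩ := hwit (fun k => (finFunctionFinEquiv (fun t : Fin (L h k) => rnd k (A (J h k + t))) : ℕ))
      (fun k => (finFunctionFinEquiv (fun t : Fin (L h k) => rnd k (A (J h k + t)))).2)
    refine ⟨XX s, ⟨s, hs, rfl⟩, ?_⟩
    have hA1 : ∀ᶠ n in atTop, |A n| ≤ 1 := by
      have := (tendsto_zero_iff_abs_tendsto_zero _).1 hA0
      filter_upwards [this.eventually (gt_mem_nhds one_pos)] with n hn using hn.le
    have hd : ∀ᶠ k in atTop, k ∈ s.1 → |A (J h k + (pq s k).2) - A (J h k + (pq s k).1)| ≤ (1/2)^k := by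
      obtain ⟨N, hN⟩ := eventually_atTop.1 hA1
      filter_upwards [hloc, eventually_ge_atTop N] with k hk hkN hks
      have h1 := hpq2 s k hs _ (hk hks)
      have : k ≤ J h k := (J_strictMono h).id_le k
      exact rnd_close k (hN _ (by omega)) (hN _ (by omega)) h1.symm
    obtain ⟨l', hl'⟩ := conv_aux h s.1 (fun k => J h k + (pq s k).1) (fun k => J h k + (pq s k).2)
      (fun k => Nat.le_add_right _ _) (fun k => by
        have := hpq1 s k hs
        rw [Fin.lt_def] at this
        omega) (fun k => by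
        have := (pq s k).2.2
        show J h k + ((pq s k).2 : ℕ) < J h (k+1)
        rw [J_succ]; omega) (fun i => (a i : ℝ)) A hAs hA0 hd (XX s) (fun i => Iff.rfl)
    classical
    have hXinf : (XX s).Infinite := by
      have hK := (h𝒮 s hs).1
      rw [Set.infinite_iff_exists_gt]
      intro N
      obtain ⟨k, hk, hk'⟩ := hK.exists_gt N
      refine ⟨J h k + (pq s k).1, ⟨k, hk, le_rfl, ?_⟩, ?_⟩
      · have := hpq1 s k hs
        rw [Fin.lt_def] at this
        omega
      · have : k ≤ J h k := (J_strictMono h).id_le k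
        omega
    refine ⟨l', ?_⟩
    have hn : Tendsto (Nat.nth (fun i => i ∈ XX s)) atTop atTop := (Nat.nth_strictMono (p := fun i => i ∈ XX s) hXinf).tendsto_atTop
    have h2 := hl'.comp hn
    refine h2.congr (fun n => ?_)
    simp only [Function.comp]
    rw [sum_ind_eq_nth (XX s) (fun i => (a i : ℝ)), Nat.count_nth_of_infinite (p := fun i => i ∈ XX s) hXinf]

theorem main_upper' (h : ℕ → ℕ) (hh : ∀ k, 1 ≤ h k) :
    ssc ≤ ploc (fun k => (2 ^ (k + 1) + 1) ^ ((2 ^ (k + 1) + 1) ^ (h k) + 1)) h :=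
  main_upper h hh

end Pool.Agent.Helper79.Ssc.Upper
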